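import Pool.Agent.H754Z.TA.Str

set_option autoImplicit false

namespace Pool.Agent.H754Z.TA

open MeasureTheory Filter Topology Pointwise

namespace P8

/-- normalised kernel -/
noncomputable def kk (s : ℝ) : ℝ := Real.pi⁻¹ * (1 + s ^ 2)⁻¹

lemma kk_pos (s : ℝ) : 0 < kk s := by
  have := Real.pi_pos
  unfold kk; positivity

lemma kk_cont : Continuous kk := by
  unfold kk
  exact continuous_const.mul (Continuous.inv₀ (by fun_prop) fun s => by positivity)

lemma kk_int : Integrable kk := integrable_inv_one_add_sq.const_mul _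

lemma kk_integral : ∫ s, kk s = 1 := by
  unfold kk
  rw [integral_const_mul, integral_univ_inv_one_add_sq, inv_mul_cancel₀ Real.pi_ne_zero]

/-- Poisson extension in scaled form -/
noncomputable def Q (u : ℝ → ℂ) (z : ℂ) : ℂ := ∫ s : ℝ, (kk s : ℂ) * u (z.re + z.im * s)

lemma Q_bound (u : ℝ → ℂ) (B : ℝ) (hB : ∀ t, ‖u t‖ ≤ B) (z : ℂ) (s : ℝ) :
    ‖(kk s : ℂ) * u (z.re + z.im * s)‖ ≤ kk s * B := by
  rw [norm_mul, Complex.norm_real, Real.norm_eq_abs, abs_of_pos (kk_pos s)]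
  exact mul_le_mul_of_nonneg_left (hB _) (kk_pos s).le

lemma Q_integrable (u : ℝ → ℂ) (hu : Continuous u) (B : ℝ) (hB : ∀ t, ‖u t‖ ≤ B) (z : ℂ) :
    Integrable fun s : ℝ => (kk s : ℂ) * u (z.re + z.im * s) := by
  have := kk_cont
  exact (kk_int.mul_const B).mono' (by fun_prop : Continuous _).aestronglyMeasurable
    (Eventually.of_forall (Q_bound u B hB z))

lemma Q_norm_le (u : ℝ → ℂ) (B : ℝ) (hB : ∀ t, ‖u t‖ ≤ B) (z : ℂ) : ‖Q u z‖ ≤ B := by
  refine (norm_integral_le_of_norm_le (kk_int.mul_const B)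
    (Eventually.of_forall (Q_bound u B hB z))).trans ?_
  rw [integral_mul_const, kk_integral, one_mul]

lemma Q_cont (u : ℝ → ℂ) (hu : Continuous u) (B : ℝ) (hB : ∀ t, ‖u t‖ ≤ B) :
    Continuous (Q u) := by
  have := kk_cont
  exact continuous_of_dominated (fun z => (by fun_prop : Continuous _).aestronglyMeasurable)
    (fun z => Eventually.of_forall (Q_bound u B hB z)) (kk_int.mul_const B)
    (Eventually.of_forall fun s => by fun_prop)

lemma Q_real (u : ℝ → ℂ) (z : ℂ) (hz : z.im = 0) : Q u z = u z.re := by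
  unfold Q
  simp only [hz, zero_mul, add_zero]
  rw [integral_mul_const, integral_complex_ofReal, kk_integral]; simp

lemma Q_eq (u : ℝ → ℂ) (z : ℂ) (hz : 0 < z.im) :
    Q u z = ∫ t : ℝ, ((z.im / (Real.pi * ((t - z.re) ^ 2 + z.im ^ 2)) : ℝ) : ℂ) * u t := by
  set g : ℝ → ℂ := fun t => ((z.im / (Real.pi * ((t - z.re) ^ 2 + z.im ^ 2)) : ℝ) : ℂ) * u t
  have h1 := Measure.integral_comp_mul_left (fun t => g (z.re + t)) z.im
  rw [integral_add_left_eq_self g z.re, abs_of_pos (inv_pos.2 hz)] at h1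
  have h2 : ∀ s : ℝ, (kk s : ℂ) * u (z.re + z.im * s) = z.im • g (z.re + z.im * s) := by
    intro s
    simp only [g, Complex.real_smul]
    rw [← mul_assoc, ← Complex.ofReal_mul]
    congr 2
    have := Real.pi_pos
    unfold kk
    field_simp
    ring
  unfold Q
  simp only [h2]
  rw [integral_smul, h1, smul_smul, mul_inv_cancel₀ hz.ne', one_smul]

lemma poi_eq (y : ℝ) (hy : 0 < y) (u : ℝ → ℂ) : Poi y u = Q u (y * Complex.I) := by
  rw [Q_eq u _ (by simpa using hy)]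
  simp [Poi]

lemma ker_bound (a b : ℝ) (ha : 0 < a) (w : ℂ) (h1 : a ≤ |w.im|) (h2 : |w.re| ≤ b) (t : ℝ) :
    ‖(((t : ℂ) - w) ^ 2)⁻¹‖ ≤ (2 + (1 + 2 * b ^ 2) / a ^ 2) * (1 + t ^ 2)⁻¹ := by
  have e : ‖(t : ℂ) - w‖ ^ 2 = (t - w.re) ^ 2 + w.im ^ 2 := by
    rw [Complex.sq_norm, Complex.normSq_apply]; simp; ring
  have h3 : a ^ 2 ≤ w.im ^ 2 := by rw [← sq_abs w.im]; gcongr
  have h4 : w.re ^ 2 ≤ b ^ 2 := by rw [← sq_abs w.re]; gcongr
  have h5 : 0 < (t - w.re) ^ 2 + w.im ^ 2 := by nlinarith [sq_nonneg (t - w.re), sq_pos_of_pos ha]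
  rw [norm_inv, norm_pow, e, ← div_eq_mul_inv, inv_eq_one_div, div_le_div_iff₀ h5 (by positivity)]
  have h6 : 1 + 2 * b ^ 2 ≤ (1 + 2 * b ^ 2) / a ^ 2 * w.im ^ 2 := by
    rw [div_mul_eq_mul_div, le_div_iff₀ (by positivity)]; gcongr
  have h7 : 0 ≤ (1 + 2 * b ^ 2) / a ^ 2 * (t - w.re) ^ 2 := by positivity
  nlinarith [sq_nonneg (t - 2 * w.re), sq_nonneg w.im]

lemma sub_ne (w : ℂ) (hw : w.im ≠ 0) (t : ℝ) : (t : ℂ) - w ≠ 0 := by
  intro h
  have := congrArg Complex.im h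
  simp at this; exact hw this

lemma ker_cont (w : ℂ) (hw : w.im ≠ 0) : Continuous fun t : ℝ => (((t : ℂ) - w) ^ 2)⁻¹ :=
  Continuous.inv₀ (by fun_prop) fun t => pow_ne_zero _ (sub_ne w hw t)

lemma ker_int (w : ℂ) (hw : w.im ≠ 0) : Integrable fun t : ℝ => ‖(((t : ℂ) - w) ^ 2)⁻¹‖ :=
  (integrable_inv_one_add_sq.const_mul _).mono' (ker_cont w hw).norm.aestronglyMeasurable
    (Eventually.of_forall fun t => by
      rw [norm_norm]; exact ker_bound |w.im| |w.re| (abs_pos.2 hw) w le_rfl le_rfl t)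

lemma ker_mul_int (w : ℂ) (hw : w.im ≠ 0) (u : ℝ → ℂ) (hu : Continuous u) (B : ℝ)
    (hB : ∀ t, ‖u t‖ ≤ B) : Integrable fun t : ℝ => (((t : ℂ) - w) ^ 2)⁻¹ • u t :=
  ((ker_int w hw).mul_const B).mono' ((ker_cont w hw).smul hu).aestronglyMeasurable
    (Eventually.of_forall fun t => by
      rw [norm_smul]; exact mul_le_mul_of_nonneg_left (hB t) (norm_nonneg _))

/-- Cauchy type transform -/
noncomputable def G (u : ℝ → ℂ) (w : ℂ) : ℂ :=
  ∫ t : ℝ, (((t : ℂ) - w)⁻¹ - ((t : ℂ) - -Complex.I)⁻¹) • u t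

lemma G_meas (u : ℝ → ℂ) (hu : Continuous u) (w : ℂ) (hw : w.im ≠ 0) :
    Continuous fun t : ℝ => (((t : ℂ) - w)⁻¹ - ((t : ℂ) - -Complex.I)⁻¹) • u t :=
  ((Continuous.inv₀ (by fun_prop) (sub_ne w hw)).sub
    (Continuous.inv₀ (by fun_prop) (sub_ne _ (by simp)))).smul hu

lemma G_int (u : ℝ → ℂ) (hu : Continuous u) (B : ℝ) (hB : ∀ t, ‖u t‖ ≤ B) (w : ℂ)
    (hw : w.im ≠ 0) :
    Integrable fun t : ℝ => (((t : ℂ) - w)⁻¹ - ((t : ℂ) - -Complex.I)⁻¹) • u t := by
  have hI : (-Complex.I).im ≠ 0 := by simp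
  refine ((((ker_int w hw).add (ker_int _ hI)).const_mul ‖w - -Complex.I‖).mul_const B).mono'
    (G_meas u hu w hw).aestronglyMeasurable (Eventually.of_forall fun t => ?_)
  rw [norm_smul]
  refine mul_le_mul ?_ (hB t) (norm_nonneg _)
    (mul_nonneg (norm_nonneg _) (add_nonneg (norm_nonneg _) (norm_nonneg _)))
  have e : ((t : ℂ) - w)⁻¹ - ((t : ℂ) - -Complex.I)⁻¹ =
      (w - -Complex.I) * (((t : ℂ) - w)⁻¹ * ((t : ℂ) - -Complex.I)⁻¹) := by
    have h1 := sub_ne w hw t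
    have h2 := sub_ne _ hI t
    field_simp
    ring
  rw [e, norm_mul, norm_mul]
  refine mul_le_mul_of_nonneg_left ?_ (norm_nonneg _)
  simp only [Pi.add_apply, ← inv_pow, norm_pow]
  nlinarith [sq_nonneg (‖((t : ℂ) - w)⁻¹‖ - ‖((t : ℂ) - -Complex.I)⁻¹‖),
    mul_nonneg (norm_nonneg ((t : ℂ) - w)⁻¹) (norm_nonneg ((t : ℂ) - -Complex.I)⁻¹)]

lemma G_deriv (u : ℝ → ℂ) (hu : Continuous u) (B : ℝ) (hB : ∀ t, ‖u t‖ ≤ B) (w : ℂ)
    (hw : w.im ≠ 0) : HasDerivAt (G u) (∫ t : ℝ, (((t : ℂ) - w) ^ 2)⁻¹ • u t) w := by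
  have ha : 0 < |w.im| / 2 := by have := abs_pos.2 hw; linarith
  have hball : ∀ x ∈ Metric.ball w (|w.im| / 2), |w.im| / 2 ≤ |x.im| ∧ |x.re| ≤ |w.re| + |w.im| / 2 := by
    intro x hx
    rw [mem_ball_iff_norm] at hx
    have h1 := Complex.abs_im_le_norm (x - w)
    have h2 := Complex.abs_re_le_norm (x - w)
    rw [Complex.sub_im] at h1
    rw [Complex.sub_re] at h2
    have h3 := abs_sub_abs_le_abs_sub w.im x.im
    rw [abs_sub_comm] at h3
    have h4 := abs_sub_abs_le_abs_sub x.re w.re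
    constructor <;> linarith
  have hne : ∀ x ∈ Metric.ball w (|w.im| / 2), x.im ≠ 0 := fun x hx =>
    abs_pos.1 (ha.trans_le (hball x hx).1)
  refine (hasDerivAt_integral_of_dominated_loc_of_deriv_le (μ := volume)
    (F := fun (x : ℂ) (t : ℝ) => (((t : ℂ) - x)⁻¹ - ((t : ℂ) - -Complex.I)⁻¹) • u t)
    (F' := fun (x : ℂ) (t : ℝ) => (((t : ℂ) - x) ^ 2)⁻¹ • u t)
    (bound := fun t => (2 + (1 + 2 * (|w.re| + |w.im| / 2) ^ 2) / (|w.im| / 2) ^ 2)
      * (1 + t ^ 2)⁻¹ * B)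
    (Metric.ball_mem_nhds w ha) ?_ (G_int u hu B hB w hw)
    ((ker_cont w hw).smul hu).aestronglyMeasurable (Eventually.of_forall fun t x hx => ?_)
    ((integrable_inv_one_add_sq.const_mul _).mul_const B)
    (Eventually.of_forall fun t x hx => ?_)).2
  · filter_upwards [Metric.ball_mem_nhds w ha] with x hx
    exact (G_meas u hu x (hne x hx)).aestronglyMeasurable
  · rw [norm_smul]
    exact mul_le_mul (ker_bound _ _ ha x (hball x hx).1 (hball x hx).2 t) (hB t) (norm_nonneg _)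
      (by positivity)
  · have h1 : HasDerivAt (fun x : ℂ => (t : ℂ) - x) (-1) x := (hasDerivAt_id x).const_sub _
    have h2 := ((h1.inv (sub_ne x (hne x hx) t)).sub_const ((t : ℂ) - -Complex.I)⁻¹).smul_const (u t)
    simpa [neg_neg, one_div] using h2

lemma G_lower (u : ℝ → ℂ) (hu : Continuous u) (B : ℝ) (hB : ∀ t, ‖u t‖ ≤ B) (au : An u) (w : ℂ)
    (hw : w.im < 0) : G u w = 0 := by
  have h := (Complex.isOpen_im_lt 0).is_const_of_deriv_eq_zero (𝕜 := ℂ) (f := G u)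
    (convex_halfSpace_im_lt 0).isPreconnected
    (fun x hx => (G_deriv u hu B hB x (ne_of_lt hx)).differentiableAt.differentiableWithinAt)
    (fun x hx => by rw [(G_deriv u hu B hB x (ne_of_lt hx)).deriv, au x hx]; rfl)
    (x := w) (y := -Complex.I) hw (by simp)
  rw [h, G]; simp

lemma Q_eq_G (u : ℝ → ℂ) (hu : Continuous u) (B : ℝ) (hB : ∀ t, ‖u t‖ ≤ B) (au : An u) (z : ℂ)
    (hz : 0 < z.im) : Q u z = (2 * Real.pi * Complex.I)⁻¹ * G u z := by
  have hz' : ((starRingEnd ℂ) z).im < 0 := by simpa using hz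
  rw [← sub_zero (G u z), ← G_lower u hu B hB au _ hz', G, G,
    ← integral_sub (G_int u hu B hB z hz.ne') (G_int u hu B hB _ hz'.ne), ← integral_const_mul,
    Q_eq u z hz]
  refine integral_congr_ae (Eventually.of_forall fun t => ?_)
  have h1 := sub_ne z hz.ne' t
  have h2 := sub_ne _ hz'.ne t
  have h3 : (((t - z.re) ^ 2 + z.im ^ 2 : ℝ) : ℂ) = ((t : ℂ) - z) * ((t : ℂ) - (starRingEnd ℂ) z) := by
    apply Complex.ext
    · simp [sq]
    · simp [sq]; ring
  have h4 : z - (starRingEnd ℂ) z = 2 * (z.im : ℂ) * Complex.I := by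
    rw [Complex.sub_conj]; push_cast; ring
  have h5 : ((t : ℂ) - z)⁻¹ - ((t : ℂ) - (starRingEnd ℂ) z)⁻¹ =
      (z - (starRingEnd ℂ) z) / (((t : ℂ) - z) * ((t : ℂ) - (starRingEnd ℂ) z)) := by
    field_simp
    ring
  have h6 : (Real.pi : ℂ) ≠ 0 := by exact_mod_cast Real.pi_ne_zero
  simp only [smul_eq_mul]
  rw [← sub_mul, sub_sub_sub_cancel_right, h5, h4, Complex.ofReal_div, Complex.ofReal_mul, h3]
  have h7 := Complex.I_ne_zero
  field_simp

lemma Q_diff (u : ℝ → ℂ) (hu : Continuous u) (B : ℝ) (hB : ∀ t, ‖u t‖ ≤ B) (au : An u) (z : ℂ)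
    (hz : 0 < z.im) : DifferentiableAt ℂ (Q u) z := by
  have h1 : Q u =ᶠ[𝓝 z] fun z => (2 * Real.pi * Complex.I)⁻¹ * G u z := by
    filter_upwards [(Complex.isOpen_im_gt 0).mem_nhds hz] with x hx
    exact Q_eq_G u hu B hB au x hx
  exact h1.differentiableAt_iff.2 ((G_deriv u hu B hB z hz.ne').differentiableAt.const_mul _)

end P8

open P8

theorem poi_mul (y : ℝ) (hy : 0 < y) (u v : ℝ → ℂ) (hu : UniformContinuous u)
    (hv : UniformContinuous v) (B : ℝ) (hBu : ∀ t, ‖u t‖ ≤ B) (hBv : ∀ t, ‖v t‖ ≤ B)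
    (au : An u) (av : An v) (auv : An (fun t => u t * v t)) :
    Poi y (fun t => u t * v t) = Poi y u * Poi y v := by
  have cu := hu.continuous
  have cv := hv.continuous
  have hB0 : 0 ≤ B := (norm_nonneg _).trans (hBu 0)
  have cuv : Continuous fun t => u t * v t := cu.mul cv
  have hBuv : ∀ t, ‖u t * v t‖ ≤ B * B := fun t => by
    rw [norm_mul]; exact mul_le_mul (hBu t) (hBv t) (norm_nonneg _) hB0
  set F : ℂ → ℂ := fun z => Q (fun t => u t * v t) (z * Complex.I) -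
    Q u (z * Complex.I) * Q v (z * Complex.I) with hF
  have q1 := Q_cont _ cuv _ hBuv
  have q2 := Q_cont _ cu _ hBu
  have q3 := Q_cont _ cv _ hBv
  have hFc : Continuous F := by fun_prop
  have hFb : ∀ z, ‖F z‖ ≤ B * B + B * B := fun z =>
    (norm_sub_le _ _).trans (add_le_add (Q_norm_le _ _ hBuv _) (by
      rw [norm_mul]; exact mul_le_mul (Q_norm_le _ _ hBu _) (Q_norm_le _ _ hBv _) (norm_nonneg _) hB0))
  have hFd : DifferentiableOn ℂ F {z | 0 < z.re} := by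
    intro z hz
    have hz' : 0 < (z * Complex.I).im := by simpa using hz
    have hl : DifferentiableAt ℂ (fun z : ℂ => z * Complex.I) z := by fun_prop
    exact (((Q_diff _ cuv _ hBuv auv _ hz').comp z hl).sub
      (((Q_diff _ cu _ hBu au _ hz').comp z hl).mul
        ((Q_diff _ cv _ hBv av _ hz').comp z hl))).differentiableWithinAt
  have h := PhragmenLindelof.right_half_plane_of_bounded_on_real (f := F) (C := 0) (z := y)
    ⟨hFd, hFc.continuousOn⟩ ⟨0, by norm_num, 0, Asymptotics.IsBigO.of_bound (B * B + B * B)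
      (Eventually.of_forall fun z => by simpa using hFb z)⟩
    ⟨B * B + B * B, eventually_map.2 (Eventually.of_forall fun x => hFb x)⟩ (fun x => by
      have : ((x : ℂ) * Complex.I * Complex.I).im = 0 := by simp
      simp only [hF, Q_real _ _ this, sub_self, norm_zero, le_refl]) (by simpa using hy.le)
  rw [poi_eq y hy, poi_eq y hy, poi_eq y hy]
  exact sub_eq_zero.1 (norm_le_zero_iff.1 h)

theorem poi_integrable (y : ℝ) (hy : 0 < y) (u : ℝ → ℂ) (hu : Continuous u) (B : ℝ)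
    (hB : ∀ t, ‖u t‖ ≤ B) :
    Integrable (fun t : ℝ => ((y / (Real.pi * (t ^ 2 + y ^ 2)) : ℝ) : ℂ) * u t) := by
  rw [← integrable_comp_mul_left_iff _ hy.ne']
  refine ((Q_integrable u hu B hB (y * Complex.I)).const_mul ((y⁻¹ : ℝ) : ℂ)).congr
    (Eventually.of_forall fun s => ?_)
  simp only [Complex.mul_re, Complex.ofReal_re, Complex.I_re, mul_zero, Complex.ofReal_im,
    Complex.I_im, mul_one, sub_self, Complex.mul_im, zero_add, add_zero]
  rw [← mul_assoc, ← Complex.ofReal_mul]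
  congr 2
  have := Real.pi_pos
  unfold kk
  field_simp
  ring

theorem poi_const (y : ℝ) (hy : 0 < y) (c : ℂ) : Poi y (fun _ => c) = c := by
  rw [poi_eq y hy, Q, integral_mul_const, integral_complex_ofReal, kk_integral]; simp

theorem poi_norm_le (y : ℝ) (hy : 0 < y) (u : ℝ → ℂ) (B : ℝ) (hB : ∀ t, ‖u t‖ ≤ B) :
    ‖Poi y u‖ ≤ B := by
  rw [poi_eq y hy]; exact Q_norm_le u B hB _

theorem poi_tendsto (u : ℝ → ℂ) (hu : Continuous u) (B : ℝ) (hB : ∀ t, ‖u t‖ ≤ B) :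
    Tendsto (fun y => Poi y u) (𝓝[>] 0) (𝓝 (u 0)) := by
  have q := Q_cont u hu B hB
  have h1 : Continuous fun y : ℝ => Q u (y * Complex.I) := by fun_prop
  have h2 := h1.tendsto 0
  rw [Q_real u _ (by simp)] at h2
  simp only [Complex.ofReal_zero, zero_mul, Complex.zero_re] at h2
  refine (h2.mono_left nhdsWithin_le_nhds).congr' ?_
  filter_upwards [self_mem_nhdsWithin] with y hy
  exact (poi_eq y hy u).symm

theorem poi_eq_one (y : ℝ) (hy : 0 < y) (u : ℝ → ℂ) (hu : Continuous u) (hB : ∀ t, ‖u t‖ ≤ 1)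
    (h : Poi y u = 1) (t : ℝ) : u t = 1 := by
  rw [poi_eq y hy] at h
  have hi := Q_integrable u hu 1 hB (y * Complex.I)
  have h1 : ∫ s : ℝ, ((kk s : ℂ) * u ((y * Complex.I : ℂ).re + (y * Complex.I : ℂ).im * s)).re = 1 := by
    have := integral_re hi
    simp only [RCLike.re_to_complex] at this
    rw [this]
    exact (congrArg Complex.re h).trans Complex.one_re
  set f : ℝ → ℝ := fun s => kk s -
    ((kk s : ℂ) * u ((y * Complex.I : ℂ).re + (y * Complex.I : ℂ).im * s)).re with hf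
  have hf' : ∀ s, f s = kk s * (1 - (u (y * s)).re) := by
    intro s; simp [hf]; ring
  have hre : ∀ s, (u s).re ≤ 1 := fun s => (Complex.re_le_norm _).trans (hB s)
  have h2 : ∫ s, f s = 0 := by
    refine (integral_sub kk_int hi.re).trans ?_
    rw [kk_integral, sub_eq_zero]
    exact h1.symm
  have hc : Continuous f := by
    have := kk_cont
    rw [funext hf']; fun_prop
  have h3 := (integral_eq_zero_iff_of_nonneg (f := f) (fun s => by
    rw [hf']; exact mul_nonneg (kk_pos s).le (sub_nonneg.2 (hre _))) (kk_int.sub hi.re)).1 h2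
  have h4 := (hc.ae_eq_iff_eq volume continuous_const).1 h3
  have h5 : f (y⁻¹ * t) = 0 := congrFun h4 _
  rw [hf', mul_inv_cancel_left₀ hy.ne'] at h5
  have h6 : (u t).re = 1 := by
    have := (mul_eq_zero.1 h5).resolve_left (kk_pos _).ne'
    linarith
  have h7 : ‖u t‖ ^ 2 ≤ 1 := by
    have := hB t
    have h0 := norm_nonneg (u t)
    nlinarith
  rw [Complex.sq_norm, Complex.normSq_apply, h6] at h7
  apply Complex.ext
  · simpa using h6
  · have : (u t).im * (u t).im = 0 := le_antisymm (by linarith) (mul_self_nonneg _)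
    simpa using this

theorem An.of_approx (u : ℝ → ℂ) (hu : Continuous u) (B : ℝ) (hB : ∀ t, ‖u t‖ ≤ B)
    (h : ∀ ε > 0, ∃ v : ℝ → ℂ, Continuous v ∧ An v ∧ ∀ t, ‖u t - v t‖ ≤ ε) : An u := by
  intro w hw
  set K := ∫ t : ℝ, ‖(((t : ℂ) - w) ^ 2)⁻¹‖ with hK
  have hK0 : 0 ≤ K := integral_nonneg fun t => norm_nonneg _
  have key : ∀ ε > 0, ‖∫ t : ℝ, (((t : ℂ) - w) ^ 2)⁻¹ • u t‖ ≤ K * ε := by
    intro ε hε
    obtain ⟨v, hv, av, hd⟩ := h ε hε
    have hBv : ∀ t, ‖v t‖ ≤ B + ε := fun t => by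
      have h1 := norm_sub_norm_le (v t) (u t)
      rw [norm_sub_rev] at h1
      linarith [hB t, hd t]
    rw [← sub_zero (∫ t : ℝ, (((t : ℂ) - w) ^ 2)⁻¹ • u t), ← av w hw,
      ← integral_sub (ker_mul_int w hw.ne u hu B hB) (ker_mul_int w hw.ne v hv _ hBv),
      hK, ← integral_mul_const]
    refine norm_integral_le_of_norm_le ((ker_int w hw.ne).mul_const ε)
      (Eventually.of_forall fun t => ?_)
    rw [← smul_sub, norm_smul]
    exact mul_le_mul_of_nonneg_left (hd t) (norm_nonneg _)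
  refine norm_le_zero_iff.1 (le_of_forall_pos_le_add fun ε hε => ?_)
  refine (key (ε / (K + 1)) (by positivity)).trans ?_
  rw [zero_add, ← mul_div_assoc, div_le_iff₀ (by positivity)]
  nlinarith

end Pool.Agent.H754Z.TA
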